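import Pool.Agent.H25.RG.Build

set_option autoImplicit false
set_option linter.unusedSectionVars false

/-! # Pair colourings of graphs without four-cycles: no rainbow triangle -/

namespace Pool.Agent.H44.RG5

open Finset SimpleGraph
open scoped Classical

/-- a graph without four-cycles -/
def C4Free {V : Type*} (G : SimpleGraph V) : Prop :=
  ∀ x y z w, G.Adj x y → G.Adj y z → G.Adj z w → G.Adj w x → x ≠ z → y ≠ w → False

lemma c4Free_of_free {V : Type*} {G : SimpleGraph V} (h : (cycleGraph 4).Free G) : C4Free G := by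
  intro x y z w hxy hyz hzw hwx hxz hyw
  apply h
  have n1 := hxy.ne
  have n2 := hyz.ne
  have n3 := hzw.ne
  have n4 := hwx.ne
  refine ⟨⟨⟨![x, y, z, w], ?_⟩, ?_⟩⟩
  · intro a b hab
    rw [cycleGraph_adj] at hab
    fin_cases a <;> fin_cases b <;> revert hab <;>
      simp_all [hxy.symm, hyz.symm, hzw.symm, hwx.symm] <;>
      exact fun h => absurd h (by decide)
  · intro a b hab
    change (![x, y, z, w] : Fin 4 → V) a = ![x, y, z, w] b at hab
    fin_cases a <;> fin_cases b <;> simp_all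

variable {n : ℕ}

/-- two edges of every triangle -/
noncomputable def TP (G : SimpleGraph (Fin n)) : Finset (Finset (Sym2 (Fin n))) :=
  ((univ : Finset (Fin n × Fin n × Fin n)).filter (fun q => q.1 < q.2.1 ∧ q.2.1 < q.2.2 ∧
    G.Adj q.1 q.2.1 ∧ G.Adj q.2.1 q.2.2 ∧ G.Adj q.1 q.2.2)).image
    (fun q => {s(q.1, q.2.1), s(q.1, q.2.2)})

lemma mem_TP {G : SimpleGraph (Fin n)} {p : Finset (Sym2 (Fin n))} : p ∈ TP G ↔
    ∃ x y z : Fin n, x < y ∧ y < z ∧ G.Adj x y ∧ G.Adj y z ∧ G.Adj x z ∧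
      p = {s(x, y), s(x, z)} := by
  simp only [TP, Finset.mem_image, Finset.mem_filter, Finset.mem_univ, true_and]
  constructor
  · rintro ⟨⟨x, y, z⟩, ⟨h1, h2, h3, h4, h5⟩, h6⟩
    exact ⟨x, y, z, h1, h2, h3, h4, h5, h6.symm⟩
  · rintro ⟨x, y, z, h1, h2, h3, h4, h5, h6⟩
    exact ⟨(x, y, z), ⟨h1, h2, h3, h4, h5⟩, h6.symm⟩

lemma TP_sub {G : SimpleGraph (Fin n)} : ∀ p ∈ TP G, (∀ e ∈ p, e ∈ G.edgeSet) ∧ p.card = 2 := by
  intro p hp
  obtain ⟨x, y, z, h1, h2, h3, h4, h5, rfl⟩ := mem_TP.1 hp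
  constructor
  · intro e he
    rw [Finset.mem_insert, Finset.mem_singleton] at he
    rcases he with rfl | rfl
    · exact h3
    · exact h5
  · rw [Finset.card_pair]
    intro h
    rw [Sym2.eq_iff] at h
    rcases h with ⟨-, h⟩ | ⟨h, -⟩
    · exact h2.ne h
    · exact (h1.trans h2).ne h

lemma TP_disj {G : SimpleGraph (Fin n)} (hG : C4Free G) :
    ∀ p ∈ TP G, ∀ p' ∈ TP G, p ≠ p' → Disjoint p p' := by
  intro p hp p' hp' hne
  obtain ⟨x, y, z, h1, h2, h3, h4, h5, rfl⟩ := mem_TP.1 hp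
  obtain ⟨x', y', z', h1', h2', h3', h4', h5', rfl⟩ := mem_TP.1 hp'
  rw [Finset.disjoint_left]
  intro e he he'
  apply hne
  rw [Finset.mem_insert, Finset.mem_singleton] at he he'
  rcases he with rfl | rfl <;> rcases he' with h | h <;> rw [Sym2.eq_iff] at h
  · -- `xy = x'y'`
    have hh : x = x' ∧ y = y' := by
      rcases h with h | ⟨e1, e2⟩
      · exact h
      · exfalso
        rw [e1, e2] at h1
        exact absurd h1' (not_lt.2 h1.le)
    obtain ⟨rfl, rfl⟩ := hh
    by_cases hz : z = z'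
    · rw [hz]
    · exact (hG x z y z' h5 h4.symm h4' h5'.symm h3.ne hz).elim
  · -- `xy = x'z'`
    have hh : x = x' ∧ y = z' := by
      rcases h with h | ⟨e1, e2⟩
      · exact h
      · exfalso
        rw [e1, e2] at h1
        exact absurd (h1'.trans h2') (not_lt.2 h1.le)
    obtain ⟨rfl, rfl⟩ := hh
    exact (hG x z y y' h5 h4.symm h4'.symm h3'.symm h3.ne (h2'.trans h2).ne').elim
  · -- `xz = x'y'`
    have hh : x = x' ∧ z = y' := by
      rcases h with h | ⟨e1, e2⟩
      · exact h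
      · exfalso
        have h6 := h1.trans h2
        rw [e1, e2] at h6
        exact absurd h1' (not_lt.2 h6.le)
    obtain ⟨rfl, rfl⟩ := hh
    exact (hG x y z z' h3 h4 h4' h5'.symm h5.ne (h2.trans h2').ne).elim
  · -- `xz = x'z'`
    have hh : x = x' ∧ z = z' := by
      rcases h with h | ⟨e1, e2⟩
      · exact h
      · exfalso
        have h6 := h1.trans h2
        rw [e1, e2] at h6
        exact absurd (h1'.trans h2') (not_lt.2 h6.le)
    obtain ⟨rfl, rfl⟩ := hh
    by_cases hy : y = y'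
    · rw [hy]
    · exact (hG x y z y' h3 h4 h4'.symm h3'.symm h5.ne hy).elim

/-- the pair of edges at the least vertex of a triangle -/
lemma TP_mem {G : SimpleGraph (Fin n)} {a b d : Fin n} (hab : G.Adj a b) (hbd : G.Adj b d)
    (had : G.Adj a d) (h1 : a < b) (h2 : a < d) : {s(a, b), s(a, d)} ∈ TP G := by
  rcases lt_trichotomy b d with h | h | h
  · exact mem_TP.2 ⟨a, b, d, h1, h, hab, hbd, had, rfl⟩
  · exact absurd h hbd.ne
  · exact mem_TP.2 ⟨a, d, b, h2, h, had, hbd.symm, hab, Finset.pair_comm _ _⟩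

/-- **pair colourings of graphs without four-cycles** -/
theorem exists_five {t : ℕ} {G : SimpleGraph (Fin n)} (hG : C4Free G)
    (ht : 2 * t ≤ G.edgeFinset.card) :
    ∃ (H : SimpleGraph (Fin n)) (c : Sym2 (Fin n) → ℕ), H.edgeFinset.card = 2 * t ∧
      (∀ e ∈ H.edgeFinset, (H.edgeFinset.filter (fun e' => c e' = c e)).card = 2) ∧
      (∀ x y z, H.Adj x y → H.Adj y z → H.Adj z x →
        c s(x, y) = c s(y, z) ∨ c s(y, z) = c s(z, x) ∨ c s(z, x) = c s(x, y)) ∧ C4Free H := by
  obtain ⟨H, c, hH, hE, h2, h3⟩ := Pool.Agent.H25.RG.build G (TP G) TP_sub (TP_disj hG) ht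
  refine ⟨H, c, hE, h2, ?_, fun x y z w a1 a2 a3 a4 => hG x y z w (hH a1) (hH a2) (hH a3) (hH a4)⟩
  have key : ∀ a b d, H.Adj a b → H.Adj b d → H.Adj a d → a < b → a < d →
      c s(a, b) = c s(a, d) := by
    intro a b d hab hbd had h1 h4
    refine h3 _ (TP_mem (hH hab) (hH hbd) (hH had) h1 h4) ?_ _ (by simp) _ (by simp)
    intro e he
    rw [Finset.mem_insert, Finset.mem_singleton] at he
    rcases he with rfl | rfl
    · exact hab
    · exact had
  intro x y z hxy hyz hzx
  have s1 : s(x, z) = s(z, x) := Sym2.eq_swap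
  have s2 : s(y, x) = s(x, y) := Sym2.eq_swap
  have s3 : s(z, y) = s(y, z) := Sym2.eq_swap
  rcases lt_or_gt_of_ne hxy.ne with g1 | g1 <;> rcases lt_or_gt_of_ne hyz.ne with g2 | g2 <;>
    rcases lt_or_gt_of_ne hzx.ne with g3 | g3
  · exact absurd (g1.trans (g2.trans g3)) (lt_irrefl _)
  · have := key x y z hxy hyz hzx.symm g1 g3
    rw [s1] at this
    exact Or.inr (Or.inr this.symm)
  · have := key z x y hzx hxy hyz.symm g3 g2
    rw [s3] at this
    exact Or.inr (Or.inl this.symm)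
  · have := key x y z hxy hyz hzx.symm g1 g3
    rw [s1] at this
    exact Or.inr (Or.inr this.symm)
  · have := key y z x hyz hzx hxy.symm g2 g1
    rw [s2] at this
    exact Or.inl this.symm
  · have := key y z x hyz hzx hxy.symm g2 g1
    rw [s2] at this
    exact Or.inl this.symm
  · have := key z x y hzx hxy hyz.symm g3 g2
    rw [s3] at this
    exact Or.inr (Or.inl this.symm)
  · exact absurd (g1.trans (g3.trans g2)) (lt_irrefl _)

end Pool.Agent.H44.RG5
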