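import Mathlib

set_option autoImplicit false
set_option linter.unusedSectionVars false

/-! # Pair colourings without rainbow four-cycles: at most `(2 - √2 + o(1)) n^(3/2)` edges -/

namespace Pool.Agent.H44.RG5

open Finset SimpleGraph
open scoped Classical

variable {V : Type*} [Fintype V]

/-- every edge has at most one partner of the same colour -/
def Uniq (G : SimpleGraph V) (c : Sym2 V → ℕ) : Prop :=
  ∀ e e₁ e₂, e ∈ G.edgeSet → e₁ ∈ G.edgeSet → e₂ ∈ G.edgeSet → c e₁ = c e → c e₂ = c e →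
    e₁ ≠ e → e₂ ≠ e → e₁ = e₂

/-- no rainbow four-cycle -/
def No4 (G : SimpleGraph V) (c : Sym2 V → ℕ) : Prop :=
  ∀ x y z w, G.Adj x y → G.Adj y z → G.Adj z w → G.Adj w x → x ≠ z → y ≠ w →
      ¬ ([c s(x, y), c s(y, z), c s(z, w), c s(w, x)] : List ℕ).Nodup

/-- centres of monochromatic cherries with ends `x`, `y` -/
noncomputable def M (G : SimpleGraph V) (c : Sym2 V → ℕ) (x y : V) : Finset V :=
  univ.filter (fun v => x ≠ y ∧ G.Adj v x ∧ G.Adj v y ∧ c s(v, x) = c s(v, y))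

/-- centres of rainbow cherries with ends `x`, `y` -/
noncomputable def R (G : SimpleGraph V) (c : Sym2 V → ℕ) (x y : V) : Finset V :=
  univ.filter (fun v => x ≠ y ∧ G.Adj v x ∧ G.Adj v y ∧ c s(v, x) ≠ c s(v, y))

/-- the pairs of end points of two disjoint edges of the same colour -/
noncomputable def B (G : SimpleGraph V) (c : Sym2 V → ℕ) : Finset (V × V) :=
  univ.filter (fun q => ∃ v w, G.Adj q.1 v ∧ G.Adj q.2 w ∧ s(q.1, v) ≠ s(q.2, w) ∧
    c s(q.1, v) = c s(q.2, w) ∧ v ≠ w ∧ q.1 ≠ q.2)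

variable {G : SimpleGraph V} {c : Sym2 V → ℕ}

lemma mem_M {x y v : V} : v ∈ M G c x y ↔ x ≠ y ∧ G.Adj v x ∧ G.Adj v y ∧
    c s(v, x) = c s(v, y) := by simp [M]

lemma mem_R {x y v : V} : v ∈ R G c x y ↔ x ≠ y ∧ G.Adj v x ∧ G.Adj v y ∧
    c s(v, x) ≠ c s(v, y) := by simp [R]

/-- the cherries -/
lemma sum_sq : ∑ v : V, G.degree v ^ 2 =
    ∑ v : V, G.degree v + ∑ x : V, ∑ y : V, ((M G c x y).card + (R G c x y).card) := by
  have e0 : ∀ v, G.degree v = ∑ x : V, if G.Adj v x then 1 else 0 := by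
    intro v
    rw [← card_neighborFinset_eq_degree, ← Finset.card_filter]
    congr 1
    ext x
    simp
  have e1 : ∑ v : V, G.degree v ^ 2 =
      ∑ x : V, ∑ y : V, ∑ v : V, (if G.Adj v x then 1 else 0) * (if G.Adj v y then 1 else 0) := by
    have : ∀ v, G.degree v ^ 2 =
        ∑ x : V, ∑ y : V, (if G.Adj v x then 1 else 0) * (if G.Adj v y then 1 else 0) := by
      intro v
      rw [sq, e0 v, Finset.sum_mul_sum]
    simp_rw [this]
    rw [Finset.sum_comm]
    refine Finset.sum_congr rfl fun x _ => ?_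
    rw [Finset.sum_comm]
  have e2 : ∑ v : V, G.degree v =
      ∑ x : V, ∑ y : V, ∑ v : V, (if x = y ∧ G.Adj v x then 1 else 0) := by
    simp_rw [e0]
    refine Finset.sum_comm.trans ?_
    refine Finset.sum_congr rfl fun x _ => ?_
    symm
    rw [Finset.sum_eq_single x]
    · refine Finset.sum_congr rfl fun v _ => ?_
      simp
    · intro y _ hy
      refine Finset.sum_eq_zero fun v _ => ?_
      rw [if_neg]
      rintro ⟨h, -⟩
      exact hy h.symm
    · intro h
      exact absurd (Finset.mem_univ x) h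
  rw [e1, e2, ← Finset.sum_add_distrib]
  refine Finset.sum_congr rfl fun x _ => ?_
  rw [← Finset.sum_add_distrib]
  refine Finset.sum_congr rfl fun y _ => ?_
  rw [M, R, Finset.card_filter, Finset.card_filter, ← Finset.sum_add_distrib,
    ← Finset.sum_add_distrib]
  refine Finset.sum_congr rfl fun v _ => ?_
  by_cases hxy : x = y
  · subst hxy
    simp
  · by_cases h1 : G.Adj v x <;> by_cases h2 : G.Adj v y <;>
      by_cases h3 : c s(v, x) = c s(v, y) <;> simp [hxy, h1, h2, h3]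

lemma card_ind {W : Type*} [Fintype W] (S : Finset W) :
    S.card = ∑ v : W, if v ∈ S then 1 else 0 := by simp

lemma sum_card3 (S : V → V → Finset V) :
    ∑ x : V, ∑ y : V, (S x y).card =
      ((univ : Finset (V × V × V)).filter (fun q => q.2.2 ∈ S q.1 q.2.1)).card := by
  rw [Finset.card_filter, Fintype.sum_prod_type]
  refine Finset.sum_congr rfl fun x _ => ?_
  rw [Fintype.sum_prod_type]
  refine Finset.sum_congr rfl fun y _ => ?_
  exact card_ind _

lemma sum_card2 (S : V → Finset V) :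
    ∑ x : V, (S x).card = ((univ : Finset (V × V)).filter (fun q => q.2 ∈ S q.1)).card := by
  rw [Finset.card_filter, Fintype.sum_prod_type]
  refine Finset.sum_congr rfl fun x _ => ?_
  exact card_ind _

lemma uniq_of_pair
    (h2 : ∀ e ∈ G.edgeFinset, (G.edgeFinset.filter (fun e' => c e' = c e)).card = 2) :
    Uniq G c := by
  intro e e₁ e₂ he h₁ h₂ c₁ c₂ n₁ n₂
  by_contra hne
  have h4 := h2 e (by simpa using he)
  have h5 : ({e, e₁, e₂} : Finset (Sym2 V)) ⊆ G.edgeFinset.filter (fun e' => c e' = c e) := by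
    intro e' he'
    simp only [Finset.mem_insert, Finset.mem_singleton] at he'
    rw [Finset.mem_filter, SimpleGraph.mem_edgeFinset]
    rcases he' with rfl | rfl | rfl
    · exact ⟨he, rfl⟩
    · exact ⟨h₁, c₁⟩
    · exact ⟨h₂, c₂⟩
  have h6 := Finset.card_le_card h5
  rw [h4, Finset.card_eq_three.2 ⟨e, e₁, e₂, n₁.symm, n₂.symm, hne, rfl⟩] at h6
  omega

/-- the partner of `xy` at `x` is unique -/
lemma uniq_at (hu : Uniq G c) {x y z z' : V} (h1 : G.Adj x y) (h2 : G.Adj x z) (h3 : G.Adj x z')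
    (h4 : c s(x, y) = c s(x, z)) (h5 : c s(x, y) = c s(x, z')) (h6 : z ≠ y) (h7 : z' ≠ y) :
    z = z' := by
  have := hu s(x, y) s(x, z) s(x, z') h1 h2 h3 h4.symm h5.symm (by
    intro h
    rw [Sym2.eq_iff] at h
    rcases h with ⟨-, h⟩ | ⟨h, -⟩
    · exact h6 h
    · exact h1.ne h) (by
    intro h
    rw [Sym2.eq_iff] at h
    rcases h with ⟨-, h⟩ | ⟨h, -⟩
    · exact h7 h
    · exact h1.ne h)
  rw [Sym2.eq_iff] at this
  rcases this with ⟨-, h⟩ | ⟨h, -⟩
  · exact h
  · exact absurd h h3.ne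

lemma sum_M_le (hu : Uniq G c) : ∑ x : V, ∑ y : V, (M G c x y).card ≤ G.edgeFinset.card := by
  rw [sum_card3]
  refine Finset.card_le_card_of_injOn (fun q => s(q.2.2, q.1)) (fun q hq => ?_) ?_
  · rw [Finset.mem_coe, Finset.mem_filter, mem_M] at hq
    rw [Finset.mem_coe, mem_edgeFinset]
    exact hq.2.2.1
  · rintro ⟨x, y, v⟩ hq ⟨x', y', v'⟩ hq' heq
    rw [Finset.mem_coe, Finset.mem_filter, mem_M] at hq hq'
    obtain ⟨-, h1, h2, h3, h4⟩ := hq
    obtain ⟨-, h1', h2', h3', h4'⟩ := hq'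
    dsimp only at h1 h2 h3 h4 h1' h2' h3' h4' heq
    rw [Sym2.eq_iff] at heq
    rcases heq with ⟨rfl, rfl⟩ | ⟨rfl, rfl⟩
    · have := uniq_at hu h2 h3 h3' h4 h4' h1.symm h1'.symm
      rw [this]
    · -- `v ~ x`, partner `v y`; and `x ~ v`, partner `x y'`
      exfalso
      have h5 := hu s(v, x) s(v, y) s(x, y') h2 h3 h3' h4.symm
        (by rw [Sym2.eq_swap (a := v)]; exact h4'.symm) (by
          intro h
          rw [Sym2.eq_iff] at h
          rcases h with ⟨-, h⟩ | ⟨h, -⟩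
          · exact h1 h.symm
          · exact h2.ne h) (by
          intro h
          rw [Sym2.eq_iff] at h
          rcases h with ⟨h, -⟩ | ⟨-, h⟩
          · exact h2.ne h.symm
          · exact h1' h.symm)
      rw [Sym2.eq_iff] at h5
      rcases h5 with ⟨h, -⟩ | ⟨-, h⟩
      · exact h2.ne h
      · exact h1 h.symm

lemma row_M_le (hu : Uniq G c) (v : V) : ∑ w : V, (M G c v w).card ≤ G.degree v := by
  rw [sum_card2, ← card_neighborFinset_eq_degree]
  refine Finset.card_le_card_of_injOn (fun q => q.2) (fun q hq => ?_) ?_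
  · rw [Finset.mem_coe, Finset.mem_filter, mem_M] at hq
    rw [Finset.mem_coe, mem_neighborFinset]
    exact hq.2.2.1.symm
  · rintro ⟨w, x⟩ hq ⟨w', x'⟩ hq' heq
    rw [Finset.mem_coe, Finset.mem_filter, mem_M] at hq hq'
    obtain ⟨-, h1, h2, h3, h4⟩ := hq
    obtain ⟨-, h1', h2', h3', h4'⟩ := hq'
    dsimp only at h1 h2 h3 h4 h1' h2' h3' h4' heq
    subst heq
    rw [uniq_at hu h2 h3 h3' h4 h4' h1.symm h1'.symm]

/-- two centres of rainbow cherries force a class -/
lemma coincide (h4 : No4 G c) {x y v w : V} (hv : v ∈ R G c x y) (hw : w ∈ R G c x y)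
    (hvw : v ≠ w) : c s(x, v) = c s(x, w) ∨ c s(y, v) = c s(y, w) ∨ c s(x, v) = c s(y, w) ∨
      c s(y, v) = c s(x, w) := by
  rw [mem_R] at hv hw
  by_contra hcon
  push Not at hcon
  apply h4 x v y w hv.2.1.symm hv.2.2.1 hw.2.2.1.symm hw.2.1 hv.1 hvw
  have e1 := hv.2.2.2
  have e2 := hw.2.2.2
  have s1 : s(v, x) = s(x, v) := Sym2.eq_swap
  have s2 : s(w, x) = s(x, w) := Sym2.eq_swap
  have s3 : s(v, y) = s(y, v) := Sym2.eq_swap
  have s4 : s(w, y) = s(y, w) := Sym2.eq_swap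
  rw [s1, s3] at e1
  rw [s2, s4] at e2
  rw [s3, s2]
  simp only [List.nodup_cons, List.mem_cons, List.not_mem_nil, or_false, not_false_eq_true,
    List.nodup_nil, and_true]
  grind

/-- at most three rainbow cherries on every pair -/
lemma card_R_le (hu : Uniq G c) (h4 : No4 G c) (x y : V) : (R G c x y).card ≤ 3 := by
  by_contra hcon
  push Not at hcon
  obtain ⟨v, hv⟩ : (R G c x y).Nonempty := Finset.card_pos.1 (by omega)
  have hv' := mem_R.1 hv
  set F1 := ((R G c x y).erase v).filter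
    (fun w => c s(x, v) = c s(x, w) ∨ c s(x, v) = c s(y, w)) with hF1
  set F2 := ((R G c x y).erase v).filter
    (fun w => c s(y, v) = c s(y, w) ∨ c s(y, v) = c s(x, w)) with hF2
  have h1 : (R G c x y).erase v ⊆ F1 ∪ F2 := by
    intro w hw
    have hw' := Finset.mem_erase.1 hw
    rw [Finset.mem_union, hF1, hF2, Finset.mem_filter, Finset.mem_filter]
    rcases coincide h4 hv hw'.2 hw'.1.symm with h | h | h | h
    · exact Or.inl ⟨hw, Or.inl h⟩
    · exact Or.inr ⟨hw, Or.inl h⟩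
    · exact Or.inl ⟨hw, Or.inr h⟩
    · exact Or.inr ⟨hw, Or.inr h⟩
  -- the end of a partner
  have key : ∀ z, G.Adj z v → z = x ∨ z = y → ∀ w ∈ (R G c x y).erase v,
      ∀ w' ∈ (R G c x y).erase v, (c s(z, v) = c s(x, w) ∨ c s(z, v) = c s(y, w)) →
      (c s(z, v) = c s(x, w') ∨ c s(z, v) = c s(y, w')) → w = w' := by
    intro z hz hzxy w hw w' hw' ha hb
    obtain ⟨hwv, hwR⟩ := Finset.mem_erase.1 hw
    obtain ⟨hwv', hwR'⟩ := Finset.mem_erase.1 hw'
    rw [mem_R] at hwR hwR'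
    have g1 : ∃ u, (u = x ∨ u = y) ∧ G.Adj w u ∧ c s(z, v) = c s(u, w) := by
      rcases ha with ha | ha
      · exact ⟨x, Or.inl rfl, hwR.2.1, ha⟩
      · exact ⟨y, Or.inr rfl, hwR.2.2.1, ha⟩
    have g2 : ∃ u, (u = x ∨ u = y) ∧ G.Adj w' u ∧ c s(z, v) = c s(u, w') := by
      rcases hb with hb | hb
      · exact ⟨x, Or.inl rfl, hwR'.2.1, hb⟩
      · exact ⟨y, Or.inr rfl, hwR'.2.2.1, hb⟩
    obtain ⟨u, hu1, hu2, hu3⟩ := g1
    obtain ⟨u', hu1', hu2', hu3'⟩ := g2
    have n1 : w ≠ x := hwR.2.1.ne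
    have n2 : w ≠ y := hwR.2.2.1.ne
    have n3 : w' ≠ x := hwR'.2.1.ne
    have n4 : w' ≠ y := hwR'.2.2.1.ne
    have := hu s(z, v) s(u, w) s(u', w') hz hu2.symm hu2'.symm hu3.symm hu3'.symm (by
      intro h
      rw [Sym2.eq_iff] at h
      rcases h with ⟨-, h⟩ | ⟨-, h⟩
      · exact hwv h
      · rcases hzxy with rfl | rfl
        · exact n1 h
        · exact n2 h) (by
      intro h
      rw [Sym2.eq_iff] at h
      rcases h with ⟨-, h⟩ | ⟨-, h⟩
      · exact hwv' h
      · rcases hzxy with rfl | rfl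
        · exact n3 h
        · exact n4 h)
    rw [Sym2.eq_iff] at this
    rcases this with ⟨-, h⟩ | ⟨h, -⟩
    · exact h
    · exfalso
      rcases hu1 with rfl | rfl
      · exact n3 h.symm
      · exact n4 h.symm
  have h2 : F1.card ≤ 1 := by
    rw [Finset.card_le_one]
    intro w hw w' hw'
    rw [hF1, Finset.mem_filter] at hw hw'
    exact key x hv'.2.1.symm (Or.inl rfl) w hw.1 w' hw'.1 hw.2 hw'.2
  have h3 : F2.card ≤ 1 := by
    rw [Finset.card_le_one]
    intro w hw w' hw'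
    rw [hF2, Finset.mem_filter] at hw hw'
    exact key y hv'.2.2.1.symm (Or.inr rfl) w hw.1 w' hw'.1 hw.2.symm hw'.2.symm
  have h5 := Finset.card_le_card h1
  have h6 := Finset.card_union_le F1 F2
  rw [Finset.card_erase_of_mem hv] at h5
  omega

lemma card_darts : ((univ : Finset (V × V)).filter (fun p => G.Adj p.1 p.2)).card =
    2 * G.edgeFinset.card := by
  rw [← sum_degrees_eq_twice_card_edges]
  have : ∀ v, G.degree v = (G.neighborFinset v).card := fun v =>
    (card_neighborFinset_eq_degree G v).symm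
  simp_rw [this]
  rw [sum_card2]
  congr 1
  ext p
  simp

/-- few pairs of end points of disjoint classes -/
lemma card_B_le (hu : Uniq G c) : (B G c).card ≤ 4 * G.edgeFinset.card := by
  set D : Finset ((V × V) × (V × V)) := univ.filter (fun r => G.Adj r.1.1 r.1.2 ∧
    G.Adj r.2.1 r.2.2 ∧ s(r.1.1, r.1.2) ≠ s(r.2.1, r.2.2) ∧
    c s(r.1.1, r.1.2) = c s(r.2.1, r.2.2)) with hD
  have h1 : (B G c) ⊆ D.image (fun r => (r.1.1, r.2.1)) := by
    rintro ⟨x, y⟩ h
    rw [B, Finset.mem_filter] at h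
    obtain ⟨-, v, w, h1, h2, h3, h4, -, -⟩ := h
    rw [Finset.mem_image]
    exact ⟨((x, v), (y, w)), by rw [hD, Finset.mem_filter]; exact ⟨Finset.mem_univ _, h1, h2, h3, h4⟩,
      rfl⟩
  have h2 : (D.image Prod.fst).card ≤ 2 * G.edgeFinset.card := by
    rw [← card_darts]
    apply Finset.card_le_card
    intro p hp
    rw [Finset.mem_image] at hp
    obtain ⟨r, hr, rfl⟩ := hp
    rw [hD, Finset.mem_filter] at hr
    rw [Finset.mem_filter]
    exact ⟨Finset.mem_univ _, hr.2.1⟩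
  have h3 : D.card ≤ 2 * (D.image Prod.fst).card := by
    refine Finset.card_le_mul_card_image D 2 fun p hp => ?_
    rw [Finset.mem_image] at hp
    obtain ⟨⟨p', y, w⟩, hr, rfl⟩ := hp
    rw [hD, Finset.mem_filter] at hr
    obtain ⟨-, a1, a2, a3, a4⟩ := hr
    dsimp only at a1 a2 a3 a4 ⊢
    refine (Finset.card_le_card (t := {(p', (y, w)), (p', (w, y))}) ?_).trans Finset.card_le_two
    rintro ⟨q, y', w'⟩ hq
    rw [Finset.mem_filter, hD, Finset.mem_filter] at hq
    obtain ⟨⟨-, b1, b2, b3, b4⟩, b5⟩ := hq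
    dsimp only at b1 b2 b3 b4 b5
    subst b5
    have := hu s(q.1, q.2) s(y, w) s(y', w') a1 a2 b2 a4.symm b4.symm a3.symm b3.symm
    rw [Sym2.eq_iff] at this
    rw [Finset.mem_insert, Finset.mem_singleton]
    rcases this with ⟨rfl, rfl⟩ | ⟨rfl, rfl⟩
    · exact Or.inl rfl
    · exact Or.inr rfl
  have h4 := Finset.card_le_card h1
  have h5 : (D.image (fun r => (r.1.1, r.2.1))).card ≤ D.card := Finset.card_image_le
  omega

/-- two rainbow cherries outside `B` -/
lemma coincide' (h4 : No4 G c) {x y v w : V} (hv : v ∈ R G c x y) (hw : w ∈ R G c x y)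
    (hvw : v ≠ w) (hB : (x, y) ∉ B G c) : c s(x, v) = c s(x, w) ∨ c s(y, v) = c s(y, w) := by
  have hv' := mem_R.1 hv
  have hw' := mem_R.1 hw
  rcases coincide h4 hv hw hvw with h | h | h | h
  · exact Or.inl h
  · exact Or.inr h
  · exfalso
    apply hB
    rw [B, Finset.mem_filter]
    refine ⟨Finset.mem_univ _, v, w, hv'.2.1.symm, hw'.2.2.1.symm, ?_, h, hvw, hv'.1⟩
    intro he
    rw [Sym2.eq_iff] at he
    rcases he with ⟨he, -⟩ | ⟨he, -⟩
    · exact hv'.1 he
    · exact hw'.2.1.ne he.symm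
  · exfalso
    apply hB
    rw [B, Finset.mem_filter]
    refine ⟨Finset.mem_univ _, w, v, hw'.2.1.symm, hv'.2.2.1.symm, ?_, h.symm, hvw.symm, hv'.1⟩
    intro he
    rw [Sym2.eq_iff] at he
    rcases he with ⟨he, -⟩ | ⟨he, -⟩
    · exact hv'.1 he
    · exact hv'.2.1.ne he.symm

lemma card_R_le' (hu : Uniq G c) (h4 : No4 G c) {x y : V} (hB : (x, y) ∉ B G c) :
    (R G c x y).card ≤ 2 := by
  by_contra hcon
  push Not at hcon
  obtain ⟨a, ha, b, hb, d, hd, hab, had, hbd⟩ := Finset.two_lt_card.1 hcon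
  have ha' := mem_R.1 ha
  have hb' := mem_R.1 hb
  have hd' := mem_R.1 hd
  have xa := ha'.2.1.symm
  have xb := hb'.2.1.symm
  have xd := hd'.2.1.symm
  have ya := ha'.2.2.1.symm
  have yb := hb'.2.2.1.symm
  have yd := hd'.2.2.1.symm
  rcases coincide' h4 ha hb hab hB with h1 | h1 <;>
    rcases coincide' h4 ha hd had hB with h2 | h2 <;>
    rcases coincide' h4 hb hd hbd hB with h3 | h3
  · exact hbd (uniq_at hu xa xb xd h1 h2 hab.symm had.symm)
  · exact hbd (uniq_at hu xa xb xd h1 h2 hab.symm had.symm)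
  · exact had (uniq_at hu xb xa xd h1.symm h3 hab hbd.symm)
  · exact hab (uniq_at hu yd ya yb h2.symm h3.symm had hbd)
  · exact hab (uniq_at hu xd xa xb h2.symm h3.symm had hbd)
  · exact had (uniq_at hu yb ya yd h1.symm h3 hab hbd.symm)
  · exact hbd (uniq_at hu ya yb yd h1 h2 hab.symm had.symm)
  · exact hbd (uniq_at hu ya yb yd h1 h2 hab.symm had.symm)

/-- the pairs outside `B` with two rainbow cherries -/
noncomputable def P (G : SimpleGraph V) (c : Sym2 V → ℕ) : Finset (V × V) :=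
  univ.filter (fun q => q ∉ B G c ∧ 2 ≤ (R G c q.1 q.2).card)

lemma card_P_le (hu : Uniq G c) (h4 : No4 G c) : 2 * (P G c).card ≤
    ∑ v : V, ∑ w : V, ((M G c v w).card ^ 2 + 6 * (M G c v w).card) := by
  set Φ : V × V → V × V → Prop := fun p q => p ∉ B G c ∧ q.1 ≠ q.2 ∧ q.1 ∈ R G c p.1 p.2 ∧
    q.2 ∈ R G c p.1 p.2 with hΦ
  have h1 : 2 * (P G c).card ≤ ∑ p : V × V, (univ.filter (fun q => Φ p q)).card := by
    calc 2 * (P G c).card = ∑ p ∈ P G c, 2 := by rw [Finset.sum_const, smul_eq_mul, mul_comm]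
      _ ≤ ∑ p ∈ P G c, (univ.filter (fun q => Φ p q)).card := by
        refine Finset.sum_le_sum fun p hp => ?_
        rw [P, Finset.mem_filter] at hp
        obtain ⟨-, hp1, hp2⟩ := hp
        obtain ⟨a, ha, b, hb, hab⟩ := Finset.one_lt_card.1 (show 1 < (R G c p.1 p.2).card by omega)
        rw [← Finset.card_pair (show ((a, b) : V × V) ≠ (b, a) by
          intro h
          rw [Prod.mk.injEq] at h
          exact hab h.1)]
        apply Finset.card_le_card
        intro q hq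
        rw [Finset.mem_insert, Finset.mem_singleton] at hq
        rw [Finset.mem_filter]
        refine ⟨Finset.mem_univ _, ?_⟩
        rcases hq with rfl | rfl
        · exact ⟨hp1, hab, ha, hb⟩
        · exact ⟨hp1, hab.symm, hb, ha⟩
      _ ≤ _ := Finset.sum_le_sum_of_subset (Finset.subset_univ _)
  have h2 : ∑ p : V × V, (univ.filter (fun q => Φ p q)).card =
      ∑ q : V × V, (univ.filter (fun p => Φ p q)).card := by
    simp_rw [Finset.card_filter]
    rw [Finset.sum_comm]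
  rw [h2, Fintype.sum_prod_type] at h1
  refine h1.trans (Finset.sum_le_sum fun v _ => Finset.sum_le_sum fun w _ => ?_)
  have h3 : (univ.filter (fun p => Φ p (v, w))) ⊆ (M G c v w ×ˢ M G c v w) ∪
      ((M G c v w ×ˢ R G c v w) ∪ (R G c v w ×ˢ M G c v w)) := by
    rintro ⟨x, y⟩ h
    rw [Finset.mem_filter] at h
    obtain ⟨-, a1, a2, a3, a4⟩ := h
    dsimp only at a1 a2 a3 a4
    have hv := mem_R.1 a3
    have hw := mem_R.1 a4
    have hx : x ∈ M G c v w ∨ x ∈ R G c v w := by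
      rw [mem_M, mem_R]
      by_cases h : c s(x, v) = c s(x, w)
      · exact Or.inl ⟨a2, hv.2.1.symm, hw.2.1.symm, h⟩
      · exact Or.inr ⟨a2, hv.2.1.symm, hw.2.1.symm, h⟩
    have hy : y ∈ M G c v w ∨ y ∈ R G c v w := by
      rw [mem_M, mem_R]
      by_cases h : c s(y, v) = c s(y, w)
      · exact Or.inl ⟨a2, hv.2.2.1.symm, hw.2.2.1.symm, h⟩
      · exact Or.inr ⟨a2, hv.2.2.1.symm, hw.2.2.1.symm, h⟩
    have hxy : x ∈ M G c v w ∨ y ∈ M G c v w := by
      rw [mem_M, mem_M]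
      rcases coincide' h4 a3 a4 a2 a1 with h | h
      · exact Or.inl ⟨a2, hv.2.1.symm, hw.2.1.symm, h⟩
      · exact Or.inr ⟨a2, hv.2.2.1.symm, hw.2.2.1.symm, h⟩
    simp only [Finset.mem_union, Finset.mem_product]
    tauto
  have h5 := Finset.card_le_card h3
  have h6 := Finset.card_union_le (M G c v w ×ˢ M G c v w)
    ((M G c v w ×ˢ R G c v w) ∪ (R G c v w ×ˢ M G c v w))
  have h7 := Finset.card_union_le (M G c v w ×ˢ R G c v w) (R G c v w ×ˢ M G c v w)
  rw [Finset.card_product, Finset.card_product] at h7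
  rw [Finset.card_product] at h6
  have h8 := card_R_le hu h4 v w
  have h9 : (M G c v w).card * (R G c v w).card ≤ (M G c v w).card * 3 :=
    Nat.mul_le_mul_left _ h8
  have h10 : (R G c v w).card * (M G c v w).card = (M G c v w).card * (R G c v w).card :=
    mul_comm _ _
  rw [sq]
  omega

lemma sum_R_le (hu : Uniq G c) (h4 : No4 G c) : ∑ x : V, ∑ y : V, (R G c x y).card ≤
    Fintype.card V ^ 2 + (P G c).card + 2 * (B G c).card := by
  rw [← Fintype.sum_prod_type (f := fun p : V × V => (R G c p.1 p.2).card)]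
  have h1 : ∀ p : V × V, (R G c p.1 p.2).card ≤
      1 + (if p ∈ P G c then 1 else 0) + 2 * (if p ∈ B G c then 1 else 0) := by
    intro p
    by_cases hB : p ∈ B G c
    · rw [if_pos hB]
      have := card_R_le hu h4 p.1 p.2
      omega
    · have h5 := card_R_le' hu h4 (x := p.1) (y := p.2) hB
      by_cases hP : p ∈ P G c
      · rw [if_pos hP]
        omega
      · rw [if_neg hP, if_neg hB]
        have : ¬ (2 ≤ (R G c p.1 p.2).card) := fun h => hP (by
          rw [P, Finset.mem_filter]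
          exact ⟨Finset.mem_univ _, hB, h⟩)
        omega
  refine (Finset.sum_le_sum fun p _ => h1 p).trans ?_
  have e1 : ∀ S : Finset (V × V), ∑ p : V × V, (if p ∈ S then 1 else 0) = S.card := by
    intro S
    simp
  rw [Finset.sum_add_distrib, Finset.sum_add_distrib, ← Finset.mul_sum, e1, e1,
    Finset.sum_const, Finset.card_univ, Fintype.card_prod, smul_eq_mul, mul_one, ← sq]

lemma row_sq (v : V) : ∑ w : V, (M G c v w).card ^ 2 ≤ (∑ w : V, (M G c v w).card) ^ 2 := by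
  rw [sq (∑ w : V, (M G c v w).card), Finset.sum_mul]
  refine Finset.sum_le_sum fun w _ => ?_
  rw [sq]
  exact Nat.mul_le_mul_left _ (Finset.single_le_sum (f := fun w => (M G c v w).card)
    (fun _ _ => Nat.zero_le _) (Finset.mem_univ w))

/-- the combinatorial inequality -/
lemma main_nat (hu : Uniq G c) (h4 : No4 G c) :
    2 * ∑ v : V, G.degree v ^ 2 ≤ 2 * Fintype.card V ^ 2 + 28 * G.edgeFinset.card +
      ∑ v : V, (∑ w : V, (M G c v w).card) ^ 2 := by
  have h1 := sum_sq (G := G) (c := c)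
  rw [sum_degrees_eq_twice_card_edges] at h1
  have h2 : ∑ x : V, ∑ y : V, ((M G c x y).card + (R G c x y).card) =
      ∑ x : V, ∑ y : V, (M G c x y).card + ∑ x : V, ∑ y : V, (R G c x y).card := by
    simp_rw [Finset.sum_add_distrib]
  have h3 := sum_M_le (G := G) (c := c) hu
  have h5 := sum_R_le hu h4
  have h6 := card_B_le (G := G) (c := c) hu
  have h7 := card_P_le hu h4
  have h8 : ∑ v : V, ∑ w : V, ((M G c v w).card ^ 2 + 6 * (M G c v w).card) =
      ∑ v : V, ∑ w : V, (M G c v w).card ^ 2 + 6 * ∑ v : V, ∑ w : V, (M G c v w).card := by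
    simp_rw [Finset.sum_add_distrib, Finset.mul_sum]
  have h9 : ∑ v : V, ∑ w : V, (M G c v w).card ^ 2 ≤
      ∑ v : V, (∑ w : V, (M G c v w).card) ^ 2 := Finset.sum_le_sum fun v _ => row_sq v
  omega

/-- the optimisation -/
lemma analytic {a d : V → ℝ} {E n : ℝ} (hE0 : 0 ≤ E) (hn0 : 0 ≤ n)
    (hn : n = (Fintype.card V : ℝ)) (ha0 : ∀ v, 0 ≤ a v) (had : ∀ v, a v ≤ d v)
    (hsa : ∑ v, a v ≤ E) (hsd : ∑ v, d v = 2 * E)
    (hm : 2 * ∑ v, d v ^ 2 ≤ 2 * n ^ 2 + 28 * E + ∑ v, a v ^ 2) :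
    (3 + 2 * √2) * E ^ 2 ≤ 2 * (n ^ 3 + 14 * n * E) := by
  have hs2 : √2 ^ 2 = 2 := Real.sq_sqrt (by norm_num)
  have hs0 : 0 ≤ √2 := Real.sqrt_nonneg 2
  generalize √2 = s at hs2 hs0
  have hs1 : s ≤ 2 := by nlinarith
  have h1 : ∀ v, (d v - (1 - s / 2) * a v) ^ 2 ≤ d v ^ 2 - a v ^ 2 / 2 := by
    intro v
    have e1 := ha0 v
    have e2 := had v
    have e3 : d v ^ 2 - a v ^ 2 / 2 - (d v - (1 - s / 2) * a v) ^ 2 =
        (2 - s) * (a v * (d v - a v)) := by
      linear_combination (-(a v) ^ 2 / 4) * hs2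
    have e4 : 0 ≤ (2 - s) * (a v * (d v - a v)) :=
      mul_nonneg (by linarith) (mul_nonneg e1 (by linarith))
    linarith
  have h2 : (∑ v, (d v - (1 - s / 2) * a v)) ^ 2 ≤ n * ∑ v, (d v - (1 - s / 2) * a v) ^ 2 := by
    have := sq_sum_le_card_mul_sum_sq (s := (Finset.univ : Finset V))
      (f := fun v => d v - (1 - s / 2) * a v)
    rw [hn]
    rwa [Finset.card_univ] at this
  have h3 : ∑ v, (d v - (1 - s / 2) * a v) ^ 2 ≤ n ^ 2 + 14 * E := by
    refine (Finset.sum_le_sum fun v _ => h1 v).trans ?_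
    rw [Finset.sum_sub_distrib, ← Finset.sum_div]
    linarith
  have h4' : ∑ v, (d v - (1 - s / 2) * a v) = 2 * E - (1 - s / 2) * ∑ v, a v := by
    rw [Finset.sum_sub_distrib, ← Finset.mul_sum, hsd]
  have h5 : (1 + s / 2) * E ≤ ∑ v, (d v - (1 - s / 2) * a v) := by
    rw [h4']
    have : (1 - s / 2) * ∑ v, a v ≤ (1 - s / 2) * E :=
      mul_le_mul_of_nonneg_left hsa (by linarith)
    linarith
  have h6 : ((1 + s / 2) * E) ^ 2 ≤ (∑ v, (d v - (1 - s / 2) * a v)) ^ 2 :=
    pow_le_pow_left₀ (mul_nonneg (by linarith) hE0) h5 2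
  have h7 : n * ∑ v, (d v - (1 - s / 2) * a v) ^ 2 ≤ n * (n ^ 2 + 14 * E) :=
    mul_le_mul_of_nonneg_left h3 hn0
  have h8 : ((1 + s / 2) * E) ^ 2 = (3 + 2 * s) / 2 * E ^ 2 := by
    linear_combination (E ^ 2 / 4) * hs2
  linarith

/-- the bound in closed form -/
theorem upper (hu : Uniq G c) (h4 : No4 G c) :
    (3 + 2 * √2) * (G.edgeFinset.card : ℝ) ^ 2 ≤
      2 * ((Fintype.card V : ℝ) ^ 3 + 14 * Fintype.card V * G.edgeFinset.card) := by
  refine analytic (V := V) (a := fun v => ((∑ w : V, (M G c v w).card : ℕ) : ℝ))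
    (d := fun v => (G.degree v : ℝ)) (Nat.cast_nonneg _) (Nat.cast_nonneg _) rfl
    (fun v => Nat.cast_nonneg _) (fun v => Nat.cast_le.2 (row_M_le hu v)) ?_ ?_ ?_
  · have := sum_M_le (G := G) (c := c) hu
    exact_mod_cast this
  · have := sum_degrees_eq_twice_card_edges G
    exact_mod_cast this
  · have := main_nat (G := G) (c := c) hu h4
    exact_mod_cast this

/-- **no rainbow four-cycle**: fewer than `(2 - √2) n √n + 5 n` edges -/
theorem upper' (hu : Uniq G c) (h4 : No4 G c) (hV : 0 < Fintype.card V) :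
    (G.edgeFinset.card : ℝ) < (2 - √2) * (Fintype.card V * √(Fintype.card V)) +
      5 * Fintype.card V := by
  by_contra hcon
  push Not at hcon
  have h1 := upper hu h4
  have hn0 : (0 : ℝ) < (Fintype.card V : ℝ) := by exact_mod_cast hV
  have hE0 : (0 : ℝ) ≤ (G.edgeFinset.card : ℝ) := Nat.cast_nonneg _
  generalize (G.edgeFinset.card : ℝ) = E at hcon h1 hE0
  generalize (Fintype.card V : ℝ) = n at hcon h1 hn0
  have hs2 : √2 ^ 2 = 2 := Real.sq_sqrt (by norm_num)
  have hs0 : 0 ≤ √2 := Real.sqrt_nonneg 2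
  generalize √2 = s at hcon h1 hs2 hs0
  have hs1 : s ≤ 3 / 2 := by nlinarith
  have hs3 : (141 / 100 : ℝ) ≤ s := by nlinarith
  have hs4 : (1411 / 1000 : ℝ) ≤ s := by nlinarith
  set A : ℝ := (2 - s) * (n * √n) with hA
  have hA2 : A ^ 2 = (2 - s) ^ 2 * n ^ 3 := by
    have : (√n) ^ 2 = n := Real.sq_sqrt hn0.le
    rw [hA]
    calc ((2 - s) * (n * √n)) ^ 2 = (2 - s) ^ 2 * n ^ 2 * (√n) ^ 2 := by ring
      _ = _ := by rw [this]; ring
  have hA0 : 0 ≤ A := by
    rw [hA]
    exact mul_nonneg (by linarith) (by positivity)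
  have hk : (3 + 2 * s) * (2 - s) ^ 2 = 2 := by
    linear_combination (2 * s - 5) * hs2
  -- `(3 + 2 s) (E ^ 2 - ...)`
  have h2 : E ^ 2 ≤ (2 - s) ^ 2 * (n ^ 3 + 14 * n * E) := by
    have h3 : 0 < (2 - s) ^ 2 := by
      have : 0 < 2 - s := by linarith
      positivity
    have h5 := mul_le_mul_of_nonneg_left h1 h3.le
    have h6 : (2 - s) ^ 2 * ((3 + 2 * s) * E ^ 2) = 2 * E ^ 2 := by
      linear_combination (E ^ 2) * hk
    rw [h6] at h5
    linarith
  have hk2 : (2 - s) ^ 2 * 14 < 5 := by nlinarith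
  have h7 : E * (E - (2 - s) ^ 2 * 14 * n) ≤ A ^ 2 := by
    rw [hA2]
    nlinarith
  have h8 : A < E - (2 - s) ^ 2 * 14 * n := by nlinarith
  have h9 : A < E := by nlinarith
  nlinarith

end Pool.Agent.H44.RG5
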